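import Pool.Agent.Helper69.SW.St

/-! # Project SW (MP_65faa7, bulk case): decay of the solution (module S5) -/

set_option autoImplicit false

open scoped BigOperators ENNReal Topology
open Pool.LE Pool.NL Pool.CL Pool.CB Filter

namespace Pool.SW

namespace S5M

theorem sB_bd {d : ℕ} (n : ℕ) (y : Zd d) : 0 ≤ sB n y ∧ sB n y ≤ 1 := by
  unfold sB ind
  split_ifs <;> norm_num

theorem rr4 {r : ℝ} (hr : 1 ≤ r) : r ^ (-(4 : ℝ)) = (r ^ 4)⁻¹ := by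
  rw [Real.rpow_neg (by linarith), show (4 : ℝ) = ((4 : ℕ) : ℝ) by norm_num, Real.rpow_natCast]

theorem rr2 {r : ℝ} (hr : 1 ≤ r) : r ^ (-(2 : ℝ)) = (r ^ 2)⁻¹ := by
  rw [Real.rpow_neg (by linarith), show (2 : ℝ) = ((2 : ℕ) : ℝ) by norm_num, Real.rpow_natCast]

/-- the bound inside -/
theorem inside {u U K C L0 r z : ℝ} (hu : 0 ≤ u) (huK : u ≤ K) (huU : u ≤ U) (hC : 0 < C)
    (hr : 1 ≤ r) (hrL : r < L0) (hz : 0 < z) (hrz : r ^ (-(4 : ℝ)) ≤ C * z) :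
    u ≤ (K * C * L0 ^ 4) ^ (7 / 8 : ℝ) * (z ^ (1 - 1 / 8 : ℝ) * U ^ (1 / 8 : ℝ)) := by
  have hK : 0 ≤ K := hu.trans huK
  have hL0 : 0 < L0 := by linarith
  have h1 : u = u ^ (7 / 8 : ℝ) * u ^ (1 / 8 : ℝ) := by
    rw [← Real.rpow_add_of_nonneg hu (by norm_num) (by norm_num)]
    norm_num
  have h2 : u ^ (7 / 8 : ℝ) ≤ (K * C * L0 ^ 4) ^ (7 / 8 : ℝ) * z ^ (1 - 1 / 8 : ℝ) := by
    rw [show (1 - 1 / 8 : ℝ) = 7 / 8 by norm_num, ← Real.mul_rpow (by positivity) hz.le]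
    apply Real.rpow_le_rpow hu _ (by norm_num)
    refine huK.trans ?_
    rw [rr4 hr] at hrz
    have h3 : r ^ 4 ≤ L0 ^ 4 := pow_le_pow_left₀ (by linarith) hrL.le 4
    have h4 : 1 ≤ L0 ^ 4 * (r ^ 4)⁻¹ := by
      rw [← div_eq_mul_inv, le_div_iff₀ (by positivity)]
      linarith
    have h5 : L0 ^ 4 * (r ^ 4)⁻¹ ≤ L0 ^ 4 * (C * z) := mul_le_mul_of_nonneg_left hrz (by positivity)
    have h6 : K * 1 ≤ K * (L0 ^ 4 * (C * z)) := mul_le_mul_of_nonneg_left (h4.trans h5) hK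
    calc K = K * 1 := (mul_one K).symm
      _ ≤ K * (L0 ^ 4 * (C * z)) := h6
      _ = K * C * L0 ^ 4 * z := by ring
  have h7 : u ^ (1 / 8 : ℝ) ≤ U ^ (1 / 8 : ℝ) := Real.rpow_le_rpow hu huU (by norm_num)
  calc u = u ^ (7 / 8 : ℝ) * u ^ (1 / 8 : ℝ) := h1
    _ ≤ (K * C * L0 ^ 4) ^ (7 / 8 : ℝ) * z ^ (1 - 1 / 8 : ℝ) * U ^ (1 / 8 : ℝ) :=
        mul_le_mul h2 h7 (Real.rpow_nonneg hu _)
          (mul_nonneg (Real.rpow_nonneg (by positivity) _) (Real.rpow_nonneg hz.le _))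
    _ = _ := by ring

/-- the final bound -/
theorem final {U K1 C m r z : ℝ} (hU : 0 ≤ U) (hUK : U ≤ K1) (hC : 0 < C) (hm : 0 ≤ m)
    (hr : 1 ≤ r) (hz : 0 < z) (hzr : z ≤ C * r ^ (-(4 : ℝ))) :
    m * (z ^ (1 - 1 / 8 : ℝ) * U ^ (1 / 8 : ℝ)) ≤
      m * C ^ (7 / 8 : ℝ) * K1 ^ (1 / 8 : ℝ) * r ^ (-(11 / 4) : ℝ) := by
  have hr0 : 0 ≤ r := by linarith
  have h1 : z ^ (1 - 1 / 8 : ℝ) ≤ C ^ (7 / 8 : ℝ) * r ^ (-(11 / 4) : ℝ) := by
    calc z ^ (1 - 1 / 8 : ℝ) = z ^ (7 / 8 : ℝ) := by norm_num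
      _ ≤ (C * r ^ (-(4 : ℝ))) ^ (7 / 8 : ℝ) := Real.rpow_le_rpow hz.le hzr (by norm_num)
      _ = C ^ (7 / 8 : ℝ) * r ^ (-(4 : ℝ) * (7 / 8)) := by
          rw [Real.mul_rpow hC.le (Real.rpow_nonneg hr0 _), ← Real.rpow_mul hr0]
      _ ≤ C ^ (7 / 8 : ℝ) * r ^ (-(11 / 4) : ℝ) := by
          apply mul_le_mul_of_nonneg_left _ (Real.rpow_nonneg hC.le _)
          exact Real.rpow_le_rpow_of_exponent_le hr (by norm_num)
  have h2 : U ^ (1 / 8 : ℝ) ≤ K1 ^ (1 / 8 : ℝ) := Real.rpow_le_rpow hU hUK (by norm_num)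
  have h3 : z ^ (1 - 1 / 8 : ℝ) * U ^ (1 / 8 : ℝ) ≤
      C ^ (7 / 8 : ℝ) * r ^ (-(11 / 4) : ℝ) * K1 ^ (1 / 8 : ℝ) :=
    mul_le_mul h1 h2 (Real.rpow_nonneg hU _)
      (mul_nonneg (Real.rpow_nonneg hC.le _) (Real.rpow_nonneg hr0 _))
  calc m * (z ^ (1 - 1 / 8 : ℝ) * U ^ (1 / 8 : ℝ)) ≤
        m * (C ^ (7 / 8 : ℝ) * r ^ (-(11 / 4) : ℝ) * K1 ^ (1 / 8 : ℝ)) :=
        mul_le_mul_of_nonneg_left h3 hm
    _ = _ := by ring

/-- comparison of the two potentials -/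
theorem pots {c V Cd C cz L0 r z U N : ℝ} (hc : 0 < c) (hV : 0 < V) (hCd : 1 ≤ Cd)
    (hcz : 0 < cz) (hL2 : 2 ≤ L0) (hL1 : c * V * Cd * C / cz ≤ L0) (hr : L0 ≤ r)
    (hzr : z ≤ C * r ^ (-(4 : ℝ))) (hU : 0 ≤ U) (hN : 0 < N) :
    c / N * (V / 2 * (Cd * z + 1 / 16 * U)) <
      (1 - 1 / 8) * (cz / N * r ^ (-(2 : ℝ))) + 1 / 8 * (c / N * (V / 2 * U)) := by
  have hr1 : 1 ≤ r := by linarith
  have hr0 : 0 < r := by linarith
  rw [rr4 hr1] at hzr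
  rw [rr2 hr1]
  rw [div_le_iff₀ hcz] at hL1
  set s := (r ^ 2)⁻¹ with hs
  have hs0 : 0 < s := by positivity
  have hs2 : (r ^ 4)⁻¹ = s * s := by
    rw [hs, ← mul_inv]
    congr 1
    ring
  have hsL : L0 * s ≤ 1 := by
    rw [hs, ← div_eq_mul_inv, div_le_one (by positivity)]
    nlinarith
  have h1 : c * V * Cd * z ≤ cz * s := by
    have h2 : c * V * Cd * z ≤ c * V * Cd * (C * (s * s)) := by
      rw [hs2] at hzr
      exact mul_le_mul_of_nonneg_left hzr (by positivity)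
    have h3 : c * V * Cd * C * (s * s) ≤ L0 * cz * (s * s) :=
      mul_le_mul_of_nonneg_right hL1 (by positivity)
    have h4 : L0 * s * (cz * s) ≤ 1 * (cz * s) := mul_le_mul_of_nonneg_right hsL (by positivity)
    linarith
  have h5 : c * (V / 2 * (Cd * z + 1 / 16 * U)) < (1 - 1 / 8) * (cz * s) + 1 / 8 * (c * (V / 2 * U)) := by
    have h6 : 0 < cz * s := by positivity
    have h7 : 0 ≤ c * V * U := by positivity
    linarith
  have h8 : c / N * (V / 2 * (Cd * z + 1 / 16 * U)) = c * (V / 2 * (Cd * z + 1 / 16 * U)) / N := by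
    ring
  have h9 : (1 - 1 / 8) * (cz / N * s) + 1 / 8 * (c / N * (V / 2 * U)) =
      ((1 - 1 / 8) * (cz * s) + 1 / 8 * (c * (V / 2 * U))) / N := by ring
  rw [h8, h9]
  exact div_lt_div_of_pos_right h5 hN

end S5M

open S5M

theorem hS5 (hS2 : StS2) (hS4 : StS4) (hUU : StUU) (hGeo : StGeo) (hRat : StRat) (hzt : Stzt)
    (hRR : StRR) : StS5 := by
  intro d V c θ θ₂ hd hV hc hθ hθ2
  obtain ⟨θ₁, h01, h12⟩ : ∃ θ₁ : ℝ, θ < θ₁ ∧ θ₁ < θ₂ := exists_between hθ2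
  have hθ1p : 0 < θ₁ := hθ.trans h01
  have hd1 : 1 ≤ d := by omega
  obtain ⟨K1, ρ1, hK1, -, -, hA⟩ := hS2 V θ₁ θ₂ hV hθ1p h12
  obtain ⟨K, ρ, hK, hρ0, hρ1, hB⟩ := hS2 V θ θ₁ hV hθ h01
  obtain ⟨Cd, hCd, n1, hn1, hS4'⟩ := hS4 d V c θ θ₁ (1 / 16) hd hV hc hθ h01 (by norm_num)
  obtain ⟨cz, C, hcz, hC, n2, hn2, hz⟩ := hzt d hd
  have hC0 : 0 < C := by linarith
  set L0 : ℝ := max 2 (c * V * Cd * C / cz) with hL0
  have hL2 : 2 ≤ L0 := le_max_left _ _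
  have hL1 : c * V * Cd * C / cz ≤ L0 := le_max_right _ _
  set m : ℝ := (K * C * L0 ^ 4) ^ (7 / 8 : ℝ) with hm
  have hm0 : 0 ≤ m := Real.rpow_nonneg (by positivity) _
  refine ⟨max 1 (m * C ^ (7 / 8 : ℝ) * K1 ^ (1 / 8 : ℝ)), le_max_left _ _, max n1 n2,
    le_trans hn1 (le_max_left _ _), fun n hn L hBd x => ?_⟩
  have hnn1 : n1 ≤ n := le_trans (le_max_left _ _) hn
  have hnn2 : n2 ≤ n := le_trans (le_max_right _ _) hn
  have hn0 : 1 ≤ n := hn1.trans hnn1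
  have hN : (0 : ℝ) < (n : ℝ) ^ 2 := by
    have : (0 : ℝ) < n := by exact_mod_cast hn0
    positivity
  obtain ⟨hR1, -⟩ := hRR d n hd1 hn0
  obtain ⟨-, hmono, hall⟩ := hUU d n L c V (sB n) hd1 hn0 hc hV (fun y => (sB_bd n y).1)
  obtain ⟨hBd1, -⟩ := hmono θ₁ θ₂ hθ1p.le h12.le hBd
  obtain ⟨hBd0, -⟩ := hmono θ θ₁ hθ.le h01.le hBd1
  obtain ⟨hU0, -, -, -, hUA⟩ := hall θ₁ hθ1p.le hBd1
  obtain ⟨hu0, -, -, -, huA⟩ := hall θ hθ.le hBd0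
  have hUK : ∀ y, UU L n c V (sB n) θ₁ y ≤ K1 := fun y =>
    (hA d n L c (sB n) hd1 hn0 hc (sB_bd n) hBd y).1
  have huK : ∀ y, UU L n c V (sB n) θ y ≤ K ∧
      UU L n c V (sB n) θ y ≤ ρ * UU L n c V (sB n) θ₁ y := fun y =>
    hB d n L c (sB n) hd1 hn0 hc (sB_bd n) hBd1 y
  have huS : ∀ y, UU L n c V (sB n) θ y ≤ Cd * zt n y + 1 / 16 * UU L n c V (sB n) θ₁ y :=
    hS4' n hnn1 L hBd1
  have hz' := hz n hnn2
  generalize hUdef : UU L n c V (sB n) θ₁ = U at *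
  generalize hudef : UU L n c V (sB n) θ = u at *
  have hU0' : ∀ y, 0 ≤ U y := fun y => (hU0 y).1
  have hu0' : ∀ y, 0 ≤ u y := fun y => (hu0 y).1
  have huU : ∀ y, u y ≤ U y := fun y => by
    have h1 := (huK y).2
    have h2 : ρ * U y ≤ 1 * U y := mul_le_mul_of_nonneg_right hρ1.le (hU0' y)
    linarith
  have key := hRat d L {x | rr n x < L0} u
    (fun y => zt n y ^ (1 - 1 / 8 : ℝ) * U y ^ (1 / 8 : ℝ))
    (fun x => c / (n : ℝ) ^ 2 * (V / 2 * (Cd * zt n x + 1 / 16 * U x)))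
    (fun x => (1 - 1 / 8) * (cz / (n : ℝ) ^ 2 * rr n x ^ (-(2 : ℝ))) +
      1 / 8 * (c / (n : ℝ) ^ 2 * (V / 2 * U x))) m hm0 hu0'
    (fun y => mul_nonneg (Real.rpow_nonneg (hz' y).1.le _) (Real.rpow_nonneg (hU0' y) _))
    (fun y hy => (hu0 y).2 hy)
    (fun y _ hy => mul_pos (Real.rpow_pos_of_pos (hz' y).1 _)
      (Real.rpow_pos_of_pos (lt_of_lt_of_le hy (huU y)) _))
    (fun y _ hy => inside (hu0' y) (huK y).1 (huU y) hC0 (hR1 y).1 hy (hz' y).1 (hz' y).2.2.2.1)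
    ?_ x
  · refine key.trans ?_
    refine (final (hU0' x) (hUK x) hC0 hm0 (hR1 x).1 (hz' x).1 (hz' x).2.2.1).trans ?_
    exact mul_le_mul_of_nonneg_right (le_max_right _ _)
      (Real.rpow_nonneg (by have := (hR1 x).1; linarith) _)
  · intro y hyL hyS huy
    have hrL : L0 ≤ rr n y := not_lt.1 hyS
    have hsB : sB n y = 0 := by
      have h1 : y ∉ Bn d n := by
        intro hmem
        have := (hR1 y).2.1 hmem
        linarith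
      unfold sB ind
      rw [if_neg h1]
    have hUy : 0 < U y := lt_of_lt_of_le huy (huU y)
    have hzy := (hz' y).1
    refine ⟨?_, ?_, ?_⟩
    · rw [huA y hyL, hsB]
      have h1 : u y * u y ≤ (Cd * zt n y + 1 / 16 * U y) * u y :=
        mul_le_mul_of_nonneg_right (huS y) huy.le
      have h2 : c / (n : ℝ) ^ 2 * (V / 2) * (u y * u y) ≤
          c / (n : ℝ) ^ 2 * (V / 2) * ((Cd * zt n y + 1 / 16 * U y) * u y) :=
        mul_le_mul_of_nonneg_left h1 (by positivity)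
      calc c / (n : ℝ) ^ 2 * (θ * 0 + V / 2 * u y ^ 2) =
            c / (n : ℝ) ^ 2 * (V / 2) * (u y * u y) := by ring
        _ ≤ _ := h2
        _ = _ := by ring
    · have hg := hGeo d (zt n) U (1 / 8) y (fun w => (hz' w).1) hU0' hUy (by norm_num) (by norm_num)
      refine le_trans ?_ hg
      have hALz : cz / (n : ℝ) ^ 2 * rr n y ^ (-(2 : ℝ)) ≤ AL (zt n) y / zt n y := by
        rw [le_div_iff₀ hzy]
        refine le_trans (le_of_eq ?_) (hz' y).2.2.2.2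
        ring
      have hALU : AL U y / U y = c / (n : ℝ) ^ 2 * (V / 2 * U y) := by
        rw [hUA y hyL, hsB]
        field_simp
        ring
      rw [hALU, mul_comm]
      apply mul_le_mul_of_nonneg_left _
        (mul_nonneg (Real.rpow_nonneg hzy.le _) (Real.rpow_nonneg hUy.le _))
      have h3 : (1 - 1 / 8 : ℝ) * (cz / (n : ℝ) ^ 2 * rr n y ^ (-(2 : ℝ))) ≤
          (1 - 1 / 8) * (AL (zt n) y / zt n y) := mul_le_mul_of_nonneg_left hALz (by norm_num)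
      linarith
    · exact pots hc hV hCd hcz hL2 hL1 hrL (hz' y).2.2.1 hUy.le hN

end Pool.SW
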